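import Pool.Agent.H41.Dp4

set_option autoImplicit false
open Pool.Agent.H41.Dp

theorem Pool.Agent.Results.MP_57350d_an.Yes.result :
    ∀ p : ℝ, 2 < p → ∀ f : ℂ → ℂ, InD p f → Outer f → Cyclic p f :=
  fun _ hp _ hf ho => yes hp.le hf ho
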